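import Pool.Agent.helper66.PX.Spec

/-!
# PX, row SPL: a simple module gives a representation by matrices
-/

set_option autoImplicit false

open Polynomial

noncomputable section

namespace Pool.Agent.PX

universe u v w

theorem SPL (hDN : DN_stmt.{u, v, w}) (hST : ST_stmt.{u, v, w}) : SPL_stmt.{u, v, w} := by
  intro K S M _ _ _ _ _ _ _ hsimple J n hJ hne hid
  obtain ⟨L, iF, iA, iM, iT, iC, hD⟩ := hDN K S M hsimple J hJ hne
  obtain ⟨hfin, hrank⟩ := hST K S M L J n hD hid
  have := hfin
  have : Nontrivial M := IsSimpleModule.nontrivial S M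
  let b := Module.finBasis L M
  let e : Module.End L M ≃ₐ[L] Matrix (Fin (Module.finrank L M)) (Fin (Module.finrank L M)) L :=
    LinearMap.toMatrixAlgEquiv b
  let ρ : S →ₐ[K] Matrix (Fin (Module.finrank L M)) (Fin (Module.finrank L M)) L :=
    (e.toAlgHom.restrictScalars K).comp (Algebra.lsmul K L M)
  have hρ : ∀ a : S, ρ a = e (Algebra.lsmul K L M a) := fun a => rfl
  refine ⟨L, iF, iA, Module.finrank L M, ρ, ?_, hrank, ?_, ?_⟩
  · exact Module.finrank_pos
  · intro a
    rw [hρ, map_eq_zero_iff e e.injective]
    constructor
    · intro h m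
      have := LinearMap.congr_fun h m
      simpa using this
    · intro h
      refine LinearMap.ext fun m => ?_
      simpa using h m
  · rw [eq_top_iff]
    intro A _
    classical
    obtain ⟨l, hl, hsum⟩ := hD (e.symm A) (Finset.univ.image b)
    have h1 : e.symm A = (l.map fun p => p.1 • (Algebra.lsmul K L M p.2 : Module.End L M)).sum := by
      refine b.ext fun i => ?_
      rw [hsum (b i) (Finset.mem_image_of_mem _ (Finset.mem_univ i))]
      clear hsum hl
      induction l with
      | nil => simp
      | cons p l ih =>
        rw [List.map_cons, List.sum_cons, List.map_cons, List.sum_cons, LinearMap.add_apply, ih]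
        rfl
    have h2 : A = (l.map fun p => p.1 • ρ p.2).sum := by
      have h3 : A = e (e.symm A) := (e.apply_symm_apply A).symm
      rw [h3, h1, map_list_sum, List.map_map]
      congr 1
      refine List.map_congr_left fun p _ => ?_
      rw [Function.comp_apply, map_smul, hρ]
    rw [h2]
    refine list_sum_mem fun x hx => ?_
    obtain ⟨p, hp, rfl⟩ := List.mem_map.1 hx
    exact Submodule.smul_mem _ _ (Submodule.subset_span ⟨p.2, hl p hp, rfl⟩)

end Pool.Agent.PX
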